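import Pool.Agent.Helper55.FR.GoalsA

/-!
Packet 8685 FR-IDM: counting the matching edges at a barrier.
-/

namespace Pool.Agent.Helper81.FR

open Finset
open Pool.Agent.Helper55.FR

lemma sum_zero_of_invol {V : Type} [Fintype V] {m : V → V} (hm : ∀ v, m (m v) = v)
    (E : V → ℤ) (h : ∀ x, E x + E (m x) = 0) : ∑ x, E x = 0 := by
  have h1 : ∑ x, E (m x) = ∑ x, E x :=
    Equiv.sum_comp (Function.Involutive.toPerm m hm) E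
  have h2 : ∑ x, (E x + E (m x)) = 0 := Finset.sum_eq_zero fun x _ => h x
  rw [Finset.sum_add_distrib, h1] at h2
  omega

open Classical in
/-- the case analysis -/
lemma cases_aux (t i u s t' i' u' : Prop) (h1 : t → ¬ i) (h2 : t → ¬ u) (h3 : i → ¬ u)
    (h1' : t' → ¬ i') (h2' : t' → ¬ u') (h3' : i' → ¬ u') (hs : s → u ∧ u') :
    ((if ¬ t ∧ ¬ t' ∧ (i ∨ i' ∨ u ∨ u') ∧ ¬ s then 1 else 0) + (if t then 1 else 0) -
      (if i then 1 else 0) - (if t ∧ t' then 1 else 0) - (if u ∧ ¬ s then 1 else 0) -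
      (if (t ∨ i ∨ u) ∧ ¬ (t' ∨ i' ∨ u') then 1 else 0) : ℤ) +
    ((if ¬ t' ∧ ¬ t ∧ (i' ∨ i ∨ u' ∨ u) ∧ ¬ s then 1 else 0) + (if t' then 1 else 0) -
      (if i' then 1 else 0) - (if t' ∧ t then 1 else 0) - (if u' ∧ ¬ s then 1 else 0) -
      (if (t' ∨ i' ∨ u') ∧ ¬ (t ∨ i ∨ u) then 1 else 0)) = 0 := by
  by_cases ht : t <;> by_cases hi : i <;> by_cases hu : u <;> by_cases ht' : t' <;>
    by_cases hi' : i' <;> by_cases hu' : u' <;> by_cases hss : s <;> simp_all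

open Classical in
theorem idm : IdmStmt := by
  intro V _ _ n m B g T I Q hm hP
  have hW : ∀ x, x ∈ T ∪ I ∪ Q.biUnion id ↔ (x ∈ T ∨ x ∈ I ∨ ∃ K ∈ Q, x ∈ K) := by
    intro x
    simp only [mem_union, mem_biUnion, id, or_assoc]
  have hF : ((Full m T I Q).card : ℤ) = ∑ x, if ¬ x ∈ T ∧ ¬ m x ∈ T ∧
      (x ∈ I ∨ m x ∈ I ∨ (∃ K ∈ Q, x ∈ K) ∨ ∃ K ∈ Q, m x ∈ K) ∧
      ¬ (∃ K ∈ Q, x ∈ K ∧ m x ∈ K) then (1 : ℤ) else 0 := by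
    rw [Finset.sum_boole]
    unfold Full
    congr 2
  have hT : (T.card : ℤ) = ∑ x, if x ∈ T then (1 : ℤ) else 0 := by
    rw [Finset.sum_boole, Finset.filter_univ_mem]
  have hI : (I.card : ℤ) = ∑ x, if x ∈ I then (1 : ℤ) else 0 := by
    rw [Finset.sum_boole, Finset.filter_univ_mem]
  have hTT : ((T.filter fun x => m x ∈ T).card : ℤ) =
      ∑ x, if x ∈ T ∧ m x ∈ T then (1 : ℤ) else 0 := by
    rw [Finset.sum_boole]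
    congr 2
    ext x
    simp only [mem_filter, mem_univ, true_and]
  have hD : ((∑ K ∈ Q, dM m K : ℕ) : ℤ) =
      ∑ x, if (∃ K ∈ Q, x ∈ K) ∧ ¬ (∃ K ∈ Q, x ∈ K ∧ m x ∈ K) then (1 : ℤ) else 0 := by
    rw [Finset.sum_boole]
    unfold dM
    rw [← Finset.card_biUnion]
    · congr 2
      ext x
      simp only [mem_biUnion, mem_filter, mem_univ, true_and]
      constructor
      · rintro ⟨K, hK, hx, hmx⟩
        refine ⟨⟨K, hK, hx⟩, ?_⟩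
        rintro ⟨K', hK', hx', hmx'⟩
        by_cases h : K = K'
        · subst h
          exact hmx hmx'
        · exact (Finset.disjoint_left.1 (hP.kK K hK K' hK' h)) hx hx'
      · rintro ⟨⟨K, hK, hx⟩, h⟩
        exact ⟨K, hK, hx, fun hmx => h ⟨K, hK, hx, hmx⟩⟩
    · intro K hK K' hK' h
      exact Finset.disjoint_of_subset_left (filter_subset _ _)
        (Finset.disjoint_of_subset_right (filter_subset _ _) (hP.kK K hK K' hK' h))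
  have hO : (((T ∪ I ∪ Q.biUnion id).filter fun x => m x ∉ T ∪ I ∪ Q.biUnion id).card : ℤ) =
      ∑ x, if (x ∈ T ∨ x ∈ I ∨ ∃ K ∈ Q, x ∈ K) ∧ ¬ (m x ∈ T ∨ m x ∈ I ∨ ∃ K ∈ Q, m x ∈ K)
        then (1 : ℤ) else 0 := by
    rw [Finset.sum_boole]
    congr 2
    ext x
    simp only [mem_filter, mem_univ, true_and, hW]
  have key := sum_zero_of_invol hm (fun x =>
    (if ¬ x ∈ T ∧ ¬ m x ∈ T ∧
      (x ∈ I ∨ m x ∈ I ∨ (∃ K ∈ Q, x ∈ K) ∨ ∃ K ∈ Q, m x ∈ K) ∧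
      ¬ (∃ K ∈ Q, x ∈ K ∧ m x ∈ K) then (1 : ℤ) else 0) + (if x ∈ T then (1 : ℤ) else 0) -
    (if x ∈ I then (1 : ℤ) else 0) - (if x ∈ T ∧ m x ∈ T then (1 : ℤ) else 0) -
    (if (∃ K ∈ Q, x ∈ K) ∧ ¬ (∃ K ∈ Q, x ∈ K ∧ m x ∈ K) then (1 : ℤ) else 0) -
    (if (x ∈ T ∨ x ∈ I ∨ ∃ K ∈ Q, x ∈ K) ∧ ¬ (m x ∈ T ∨ m x ∈ I ∨ ∃ K ∈ Q, m x ∈ K)
      then (1 : ℤ) else 0)) (by
      intro x
      have hsw : (∃ K ∈ Q, m x ∈ K ∧ x ∈ K) ↔ (∃ K ∈ Q, x ∈ K ∧ m x ∈ K) := by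
        constructor <;> rintro ⟨K, hK, h1, h2⟩ <;> exact ⟨K, hK, h2, h1⟩
      have h1 : ∀ y, y ∈ T → ¬ y ∈ I := fun y hy hy' => Finset.disjoint_left.1 hP.tI hy hy'
      have h2 : ∀ y, y ∈ T → ¬ (∃ K ∈ Q, y ∈ K) := fun y hy ⟨K, hK, hy'⟩ =>
        Finset.disjoint_left.1 (hP.tK K hK) hy hy'
      have h3 : ∀ y, y ∈ I → ¬ (∃ K ∈ Q, y ∈ K) := fun y hy ⟨K, hK, hy'⟩ =>
        Finset.disjoint_left.1 (hP.iK K hK) hy hy'
      have := cases_aux (x ∈ T) (x ∈ I) (∃ K ∈ Q, x ∈ K) (∃ K ∈ Q, x ∈ K ∧ m x ∈ K) (m x ∈ T)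
        (m x ∈ I) (∃ K ∈ Q, m x ∈ K) (h1 x) (h2 x) (h3 x) (h1 (m x)) (h2 (m x)) (h3 (m x))
        (by rintro ⟨K, hK, ha, hb⟩; exact ⟨⟨K, hK, ha⟩, ⟨K, hK, hb⟩⟩)
      simp only [hm x, hsw]
      convert this)
  simp only [Finset.sum_sub_distrib, Finset.sum_add_distrib] at key
  rw [← hF, ← hT, ← hI, ← hTT, ← hD, ← hO] at key
  omega

end Pool.Agent.Helper81.FR
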